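import Pool.Agent.W203.WS.Stm

set_option autoImplicit false

open MeasureTheory Finset

namespace Pool.Agent.W553.WS

open Pool.Agent.W203.WS

lemma Kh_integrable (ε : ℝ) (hε : 0 < ε) : Integrable (fun t => Kh ε t) := by
  unfold Kh
  have h : Integrable (fun t : ℝ => Real.exp (-(Real.pi * ε ^ 2) * t ^ 2)) :=
    integrable_exp_neg_mul_sq (by positivity)
  refine (h.const_mul ε).congr (Filter.Eventually.of_forall fun t => ?_)
  simp only
  congr 2
  ring

lemma Kh_integral (ε : ℝ) (hε : 0 < ε) : ∫ t, Kh ε t = 1 := by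
  unfold Kh
  have h := integral_gaussian (Real.pi * ε ^ 2)
  have e1 : ∀ t : ℝ, ε * Real.exp (-Real.pi * (ε * t) ^ 2) =
      ε * Real.exp (-(Real.pi * ε ^ 2) * t ^ 2) := by
    intro t
    congr 2
    ring
  simp_rw [e1]
  rw [integral_const_mul, h]
  have e2 : Real.pi / (Real.pi * ε ^ 2) = (1 / ε) ^ 2 := by
    have := Real.pi_pos
    field_simp
  rw [e2, Real.sqrt_sq (by positivity)]
  field_simp

lemma add_rpow_le (x y p : ℝ) (hx : 0 ≤ x) (hy : 0 ≤ y) (hp : 0 ≤ p) :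
    (x + y) ^ p ≤ 2 ^ p * (x ^ p + y ^ p) := by
  have hxp : 0 ≤ x ^ p := Real.rpow_nonneg hx p
  have hyp : 0 ≤ y ^ p := Real.rpow_nonneg hy p
  rcases le_total x y with h | h
  · calc (x + y) ^ p ≤ (2 * y) ^ p := Real.rpow_le_rpow (by positivity) (by linarith) hp
      _ = 2 ^ p * y ^ p := Real.mul_rpow (by norm_num) hy
      _ ≤ _ := by gcongr; linarith
  · calc (x + y) ^ p ≤ (2 * x) ^ p := Real.rpow_le_rpow (by positivity) (by linarith) hp
      _ = 2 ^ p * x ^ p := Real.mul_rpow (by norm_num) hx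
      _ ≤ _ := by gcongr; linarith

theorem t_R2 (h : S_SQ) : S_R2 := by
  intro k s hk hs
  have hsR : (5 : ℝ) ≤ s := by exact_mod_cast hs
  set p : ℝ := (s : ℝ) / 2 with hp
  have hp1 : 5 / 2 ≤ p := by rw [hp]; linarith
  have hp0 : 0 ≤ p := by linarith
  refine ⟨6 ^ p + 2 * (2 ^ p * ((1 + 2 * s) ^ p * (3 : ℝ) ^ (1 / 4 : ℝ))), by positivity, ?_⟩
  intro P ε hP hε hε1
  have hP' : (1 : ℝ) ≤ P := by exact_mod_cast hP
  have hP0 : (0 : ℝ) < P := by linarith
  set T := T0 k P with hT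
  have hTpos : 0 < T := by rw [hT]; exact Real.rpow_pos_of_pos hP0 _
  set L : ℝ := 1 + Real.log (3 * P) with hL
  have hL0 : 0 ≤ Real.log (3 * P) := Real.log_nonneg (by linarith)
  have hL1 : 1 ≤ L := by rw [hL]; linarith
  set Q : ℝ := (P : ℝ) ^ (k - 2) with hQ
  have hQ0 : 0 < Q := by positivity
  set A : ℝ := 2 ^ p * ε * (L / Q) ^ p with hA
  have hA0 : 0 ≤ A := by positivity
  set H : ℝ → ℝ := Set.indicator (Set.Ioi T) (fun t => t ^ (-p)) with hH
  have hHi : Integrable H := by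
    rw [hH, integrable_indicator_iff measurableSet_Ioi]
    exact integrableOn_Ioi_rpow_of_lt (by linarith) hTpos
  have hH0 : ∀ t, 0 ≤ H t := by
    intro t
    rw [hH]
    refine Set.indicator_nonneg ?_ t
    intro x hx
    have : 0 < x := lt_trans hTpos hx
    positivity
  have hHint : ∫ t, H t = T ^ (1 - p) / (p - 1) := by
    rw [hH, integral_indicator measurableSet_Ioi, integral_Ioi_rpow_of_lt (by linarith) hTpos]
    have e1 : -p + 1 = 1 - p := by ring
    rw [e1, ← neg_div_neg_eq]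
    congr 1 <;> ring
  have hKi := Kh_integrable ε hε
  have hKint := Kh_integral ε hε
  have hK0 : ∀ t, 0 ≤ Kh ε t := by
    intro t
    unfold Kh
    positivity
  have hK1 : ∀ t, Kh ε t ≤ ε := by
    intro t
    unfold Kh
    have : Real.exp (-Real.pi * (ε * t) ^ 2) ≤ 1 := by
      rw [Real.exp_le_one_iff]
      have := Real.pi_pos
      nlinarith [sq_nonneg (ε * t), mul_nonneg this.le (sq_nonneg (ε * t))]
    nlinarith
  set g : ℝ → ℝ := fun t => 2 ^ p * (3 * P) ^ p * Kh ε t + A * (H t + H (-t)) with hg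
  have hgi : Integrable g := by
    rw [hg]
    exact (hKi.const_mul _).add ((hHi.add hHi.comp_neg).const_mul _)
  have hg0 : ∀ t, 0 ≤ g t := by
    intro t
    rw [hg]
    have := hK0 t
    have := hH0 t
    have := hH0 (-t)
    positivity
  have hgint : ∫ t, g t = 2 ^ p * (3 * P) ^ p + A * (2 * (T ^ (1 - p) / (p - 1))) := by
    have hI2 : Integrable (fun t => H t + H (-t)) := hHi.add hHi.comp_neg
    have e0 : ∫ t, g t = (∫ t, 2 ^ p * (3 * P) ^ p * Kh ε t) + ∫ t, A * (H t + H (-t)) :=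
      integral_add (hKi.const_mul _) (hI2.const_mul _)
    rw [e0, integral_const_mul, integral_const_mul, hKint]
    have e1 : ∫ t, (H t + H (-t)) = 2 * (T ^ (1 - p) / (p - 1)) := by
      rw [integral_add hHi hHi.comp_neg, integral_neg_eq_self, hHint]
      ring
    rw [e1]
    ring
  have key : ∀ t ∈ (Set.Icc (-T) T)ᶜ,
      Kh ε t * (∫ θ in (0 : ℝ)..1, ‖S k P t θ‖ ^ 2) ^ p ≤ g t := by
    intro t ht
    have ht2 : T < |t| := by
      by_contra hcon
      push Not at hcon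
      exact ht (abs_le.1 hcon)
    have ht0 : t ≠ 0 := by
      intro h0
      rw [h0, abs_zero] at ht2
      linarith
    have htp : 0 < |t| := abs_pos.2 ht0
    have h1 := h k P t hk hP ht0
    have ha0 : 0 ≤ ∫ θ in (0 : ℝ)..1, ‖S k P t θ‖ ^ 2 :=
      intervalIntegral.integral_nonneg (by norm_num) (fun θ _ => by positivity)
    have h2 : (∫ θ in (0 : ℝ)..1, ‖S k P t θ‖ ^ 2) ^ p ≤
        2 ^ p * ((3 * P) ^ p + (L / (|t| * Q)) ^ p) := by
      refine le_trans (Real.rpow_le_rpow ha0 h1 hp0) ?_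
      exact add_rpow_le _ _ p (by positivity) (by positivity) hp0
    have h3 : (L / (|t| * Q)) ^ p = (L / Q) ^ p * |t| ^ (-p) := by
      rw [Real.rpow_neg htp.le, ← div_eq_mul_inv, ← Real.div_rpow (by positivity) htp.le]
      congr 1
      field_simp
    have h4 : |t| ^ (-p) ≤ H t + H (-t) := by
      rcases le_or_gt 0 t with h5 | h5
      · have e1 : H t = |t| ^ (-p) := by
          rw [hH, Set.indicator_of_mem, abs_of_nonneg h5]
          rw [abs_of_nonneg h5] at ht2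
          exact ht2
        rw [e1]
        have := hH0 (-t)
        linarith
      · have e1 : H (-t) = |t| ^ (-p) := by
          rw [hH, Set.indicator_of_mem, abs_of_neg h5]
          rw [abs_of_neg h5] at ht2
          exact ht2
        rw [e1]
        have := hH0 t
        linarith
    have hpos : 0 ≤ |t| ^ (-p) := by positivity
    calc Kh ε t * (∫ θ in (0 : ℝ)..1, ‖S k P t θ‖ ^ 2) ^ p
        ≤ Kh ε t * (2 ^ p * ((3 * P) ^ p + (L / (|t| * Q)) ^ p)) :=
          mul_le_mul_of_nonneg_left h2 (hK0 t)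
      _ = 2 ^ p * (3 * P) ^ p * Kh ε t + Kh ε t * (2 ^ p * ((L / Q) ^ p * |t| ^ (-p))) := by
          rw [h3]; ring
      _ ≤ 2 ^ p * (3 * P) ^ p * Kh ε t + ε * (2 ^ p * ((L / Q) ^ p * |t| ^ (-p))) := by
          have := mul_le_mul_of_nonneg_right (hK1 t)
            (show 0 ≤ 2 ^ p * ((L / Q) ^ p * |t| ^ (-p)) by positivity)
          linarith
      _ = 2 ^ p * (3 * P) ^ p * Kh ε t + A * |t| ^ (-p) := by rw [hA]; ring
      _ ≤ g t := by
          rw [hg]
          have := mul_le_mul_of_nonneg_left h4 hA0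
          simp only
          linarith
  have hfin : A * (2 * (T ^ (1 - p) / (p - 1))) ≤
      2 * (2 ^ p * ((1 + 2 * s) ^ p * (3 : ℝ) ^ (1 / 4 : ℝ))) * (ε * (P : ℝ) ^ ((s : ℝ) - k - 1 / 2)) := by
    have hLp : L ^ p ≤ (1 + 2 * s) ^ p * ((3 : ℝ) ^ (1 / 4 : ℝ) * (P : ℝ) ^ (1 / 4 : ℝ)) := by
      have hη : (0 : ℝ) < 1 / (2 * s) := by positivity
      have h6 : Real.log (3 * P) ≤ (3 * P) ^ (1 / (2 * (s : ℝ))) / (1 / (2 * (s : ℝ))) :=
        Real.log_le_rpow_div (by positivity) hη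
      have h7 : (1 : ℝ) ≤ (3 * P) ^ (1 / (2 * (s : ℝ))) :=
        Real.one_le_rpow (by linarith) hη.le
      have h8 : L ≤ (1 + 2 * s) * (3 * P) ^ (1 / (2 * (s : ℝ))) := by
        rw [hL]
        have e1 : (3 * P : ℝ) ^ (1 / (2 * (s : ℝ))) / (1 / (2 * (s : ℝ))) =
            2 * s * (3 * P : ℝ) ^ (1 / (2 * (s : ℝ))) := by
          field_simp
        rw [e1] at h6
        linarith
      calc L ^ p ≤ ((1 + 2 * s) * (3 * P) ^ (1 / (2 * (s : ℝ)))) ^ p :=
            Real.rpow_le_rpow (by linarith) h8 hp0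
        _ = (1 + 2 * s) ^ p * (((3 * P) ^ (1 / (2 * (s : ℝ)))) ^ p) :=
            Real.mul_rpow (by positivity) (by positivity)
        _ = (1 + 2 * s) ^ p * ((3 * P) ^ (1 / 4 : ℝ)) := by
            rw [← Real.rpow_mul (by positivity)]
            congr 2
            rw [hp]
            field_simp
            norm_num
        _ = _ := by rw [Real.mul_rpow (by norm_num) hP0.le]
    have hQp : Q = (P : ℝ) ^ ((k : ℝ) - 2) := by
      rw [hQ, ← Real.rpow_natCast]
      congr 1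
      push_cast [Nat.cast_sub hk]
      ring
    have hdiv : T ^ (1 - p) / (p - 1) ≤ T ^ (1 - p) :=
      div_le_self (by positivity) (by linarith)
    have hcomb : (L / Q) ^ p * T ^ (1 - p) ≤
        (1 + 2 * s) ^ p * (3 : ℝ) ^ (1 / 4 : ℝ) * (P : ℝ) ^ ((s : ℝ) - k - 1 / 2) := by
      rw [Real.div_rpow (by linarith) hQ0.le]
      have e2 : (Q ^ p)⁻¹ * T ^ (1 - p) = (P : ℝ) ^ ((s : ℝ) - k + 1 / 2 - s / 4) := by
        rw [hQp, hT, T0, ← Real.rpow_mul hP0.le, ← Real.rpow_mul hP0.le, ← Real.rpow_neg hP0.le,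
          ← Real.rpow_add hP0]
        congr 1
        rw [hp]
        ring
      calc L ^ p / Q ^ p * T ^ (1 - p) = L ^ p * ((Q ^ p)⁻¹ * T ^ (1 - p)) := by
            rw [div_eq_mul_inv]; ring
        _ = L ^ p * (P : ℝ) ^ ((s : ℝ) - k + 1 / 2 - s / 4) := by rw [e2]
        _ ≤ ((1 + 2 * s) ^ p * ((3 : ℝ) ^ (1 / 4 : ℝ) * (P : ℝ) ^ (1 / 4 : ℝ))) *
            (P : ℝ) ^ ((s : ℝ) - k + 1 / 2 - s / 4) :=
            mul_le_mul_of_nonneg_right hLp (by positivity)
        _ = (1 + 2 * s) ^ p * (3 : ℝ) ^ (1 / 4 : ℝ) *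
            ((P : ℝ) ^ (1 / 4 : ℝ) * (P : ℝ) ^ ((s : ℝ) - k + 1 / 2 - s / 4)) := by ring
        _ = (1 + 2 * s) ^ p * (3 : ℝ) ^ (1 / 4 : ℝ) *
            (P : ℝ) ^ (1 / 4 + ((s : ℝ) - k + 1 / 2 - s / 4)) := by
            rw [← Real.rpow_add hP0]
        _ ≤ _ := by
            refine mul_le_mul_of_nonneg_left ?_ (by positivity)
            exact Real.rpow_le_rpow_of_exponent_le hP' (by linarith)
    calc A * (2 * (T ^ (1 - p) / (p - 1))) ≤ A * (2 * T ^ (1 - p)) := by gcongr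
      _ = 2 * (2 ^ p) * ε * ((L / Q) ^ p * T ^ (1 - p)) := by rw [hA]; ring
      _ ≤ 2 * (2 ^ p) * ε * ((1 + 2 * s) ^ p * (3 : ℝ) ^ (1 / 4 : ℝ) *
            (P : ℝ) ^ ((s : ℝ) - k - 1 / 2)) := mul_le_mul_of_nonneg_left hcomb (by positivity)
      _ = _ := by ring
  have h6 : 2 ^ p * (3 * P : ℝ) ^ p = 6 ^ p * (P : ℝ) ^ p := by
    rw [← Real.mul_rpow (by norm_num) (by positivity), ← Real.mul_rpow (by norm_num) hP0.le]
    congr 1
    ring
  calc ∫ t in (Set.Icc (-T) T)ᶜ, Kh ε t * (∫ θ in (0 : ℝ)..1, ‖S k P t θ‖ ^ 2) ^ p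
      ≤ ∫ t in (Set.Icc (-T) T)ᶜ, g t := by
        refine integral_mono_of_nonneg ?_ hgi.integrableOn ?_
        · refine Filter.Eventually.of_forall fun t => ?_
          have ha0 : 0 ≤ ∫ θ in (0 : ℝ)..1, ‖S k P t θ‖ ^ 2 :=
            intervalIntegral.integral_nonneg (by norm_num) (fun θ _ => by positivity)
          exact mul_nonneg (hK0 t) (Real.rpow_nonneg ha0 _)
        · exact (ae_restrict_mem measurableSet_Icc.compl).mono key
    _ ≤ ∫ t, g t := setIntegral_le_integral hgi (Filter.Eventually.of_forall hg0)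
    _ = 2 ^ p * (3 * P) ^ p + A * (2 * (T ^ (1 - p) / (p - 1))) := hgint
    _ ≤ 6 ^ p * (P : ℝ) ^ p + 2 * (2 ^ p * ((1 + 2 * s) ^ p * (3 : ℝ) ^ (1 / 4 : ℝ))) *
        (ε * (P : ℝ) ^ ((s : ℝ) - k - 1 / 2)) := by
        rw [h6]; linarith
    _ ≤ _ := by
        have hx : 0 ≤ ε * (P : ℝ) ^ ((s : ℝ) - k - 1 / 2) := by positivity
        have hy : 0 ≤ (P : ℝ) ^ p := by positivity
        have hc1 : (0 : ℝ) ≤ 6 ^ p := by positivity
        have hc2 : (0 : ℝ) ≤ 2 * (2 ^ p * ((1 + 2 * s) ^ p * (3 : ℝ) ^ (1 / 4 : ℝ))) := by positivity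
        nlinarith [mul_nonneg hc1 hx, mul_nonneg hc2 hy]

end Pool.Agent.W553.WS
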